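import Mathlib

open Set Real
open scoped ENNReal NNReal

namespace Pool.Agent.Results.MP_9fae52_an.BetterMotion

/-- Euclidean three-space. -/
abbrev E : Type := EuclideanSpace ℝ (Fin 3)

/-- The four end positions. -/
noncomputable def A₁ : E := !₂[0, 0, 0]
@[inherit_doc A₁] noncomputable def B₁ : E := !₂[1, 1, 0]
@[inherit_doc A₁] noncomputable def A₂ : E := !₂[0, 1, 2]
@[inherit_doc A₁] noncomputable def B₂ : E := !₂[1, 0, 2]

/-- A motion of the segment. -/
structure IsMotion (A B : ℝ → E) : Prop where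
  contA : ContinuousOn A (Icc 0 1)
  contB : ContinuousOn B (Icc 0 1)
  dist_eq : ∀ t ∈ Icc (0 : ℝ) 1, dist (A t) (B t) = √2
  A_zero : A 0 = A₁
  B_zero : B 0 = B₁
  A_one : A 1 = A₂
  B_one : B 1 = B₂

/-- The cost of a motion: the sum of the lengths of the two endpoint curves. -/
noncomputable def cost (A B : ℝ → E) : ℝ≥0∞ :=
  eVariationOn A (Icc 0 1) + eVariationOn B (Icc 0 1)

/-- The infimum of the cost over all motions. -/
noncomputable def infCost : ℝ≥0∞ := ⨅ (A : ℝ → E) (B : ℝ → E) (_ : IsMotion A B), cost A B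

/-- The turning points of the motion `M_θ`. -/
noncomputable def C₁ (θ : ℝ) : E := !₂[1, cos θ, sin θ]
@[inherit_doc C₁] noncomputable def C₂ (θ : ℝ) : E := !₂[0, cos θ, 2 - sin θ]

/-- Stage 2 of `M_θ` can be carried out. -/
def Admissible (θ : ℝ) : Prop :=
  ∃ a b : ℝ → ℝ, ContinuousOn a (Icc 0 1) ∧ ContinuousOn b (Icc 0 1) ∧
    MonotoneOn a (Icc 0 1) ∧ MonotoneOn b (Icc 0 1) ∧
    a 0 = 0 ∧ b 0 = 0 ∧ a 1 = 1 ∧ b 1 = 1 ∧
    ∀ t ∈ Icc (0 : ℝ) 1,
      dist (A₁ + a t • (C₂ θ - A₁)) (C₁ θ + b t • (B₂ - C₁ θ)) = √2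

/-- The cost of `M_θ`: two great-circle arcs of spheres of radius `√2` and two segments. -/
noncomputable def costM (θ : ℝ) : ℝ :=
  √2 * InnerProductGeometry.angle (B₁ - A₁) (C₁ θ - A₁) +
    (dist (C₁ θ) B₂ + dist A₁ (C₂ θ)) +
    √2 * InnerProductGeometry.angle (C₂ θ - B₂) (A₂ - B₂)

/-- The infimum of the costs of the motions `M_θ`. -/
noncomputable def mstar : ℝ≥0∞ := ⨅ (θ : ℝ) (_ : Admissible θ), ENNReal.ofReal (costM θ)

/-! ### The lower bound for the motions `M_θ` -/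

lemma dist_sq (x y : E) :
    dist x y ^ 2 = (x 0 - y 0) ^ 2 + (x 1 - y 1) ^ 2 + (x 2 - y 2) ^ 2 := by
  rw [EuclideanSpace.dist_eq, sq_sqrt (by positivity), Fin.sum_univ_three]
  simp [Real.dist_eq, sq_abs]

lemma inner_eq (x y : E) : inner ℝ x y = x 0 * y 0 + x 1 * y 1 + x 2 * y 2 := by
  rw [PiLp.inner_apply, Fin.sum_univ_three]
  simp [mul_comm]

lemma norm_sq (x : E) : ‖x‖ ^ 2 = x 0 ^ 2 + x 1 ^ 2 + x 2 ^ 2 := by
  rw [← real_inner_self_eq_norm_sq, inner_eq]
  ring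

lemma arcsin_lower {x : ℝ} (h0 : 0 ≤ x) (h1 : x < 1) : x + x ^ 3 / 6 ≤ arcsin x := by
  have hmono : MonotoneOn (fun x => arcsin x - (x + x ^ 3 / 6)) (Ico 0 1) := by
    apply monotoneOn_of_deriv_nonneg (convex_Ico 0 1)
    · exact (continuous_arcsin.sub (by fun_prop)).continuousOn
    · rw [interior_Ico]
      intro y hy
      have h2 : y ≠ 1 := hy.2.ne
      have h3 : y ≠ -1 := (by linarith [hy.1] : (-1 : ℝ) < y).ne'
      exact ((hasDerivAt_arcsin h3 h2).differentiableAt.sub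
        (by fun_prop)).differentiableWithinAt
    · rw [interior_Ico]
      intro y hy
      have h2 : y ≠ 1 := hy.2.ne
      have h3 : y ≠ -1 := (by linarith [hy.1] : (-1 : ℝ) < y).ne'
      have h4 : HasDerivAt (fun x => arcsin x - (x + x ^ 3 / 6))
          (1 / √(1 - y ^ 2) - (1 + 3 * y ^ 2 / 6)) y := by
        have h5 : HasDerivAt (fun x : ℝ => x + x ^ 3 / 6) (1 + 3 * y ^ 2 / 6) y := by
          have h6 : HasDerivAt (fun x : ℝ => x + x ^ 3 / 6)
              (1 + (3 : ℕ) * y ^ (3 - 1) / 6) y :=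
            (hasDerivAt_id' y).add ((hasDerivAt_pow 3 y).div_const 6)
          simpa using h6
        exact (hasDerivAt_arcsin h3 h2).sub h5
      rw [h4.deriv]
      have h7 : 0 < 1 - y ^ 2 := by nlinarith [hy.1, hy.2]
      have h8 : 0 < √(1 - y ^ 2) := sqrt_pos.2 h7
      rw [sub_nonneg, le_div_iff₀ h8]
      have h9 : √(1 - y ^ 2) ^ 2 = 1 - y ^ 2 := sq_sqrt h7.le
      have h10 : ((1 + 3 * y ^ 2 / 6) * √(1 - y ^ 2)) ^ 2 ≤ 1 ^ 2 := by
        rw [mul_pow, h9]
        have hy2 : 0 ≤ y ^ 2 := by positivity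
        nlinarith [mul_nonneg hy2 hy2, mul_nonneg (mul_nonneg hy2 hy2) hy2]
      exact (pow_le_pow_iff_left₀ (by positivity) zero_le_one (by norm_num)).1 h10
  have h2 := hmono ⟨le_refl 0, zero_lt_one⟩ ⟨h0, h1⟩ h0
  simp only [arcsin_zero] at h2
  norm_num at h2
  linarith

/-- Lower bound of the angle. -/
lemma angle_lower {β c : ℝ} (hβ0 : 0 ≤ β) (hβ1 : β ≤ π) (hc : -1 ≤ c) (hc1 : c ≤ 1)
    (hcos : cos β = (1 + c) / 2) :
    2 * √((1 - c) / 2) + √((1 - c) / 2) ^ 3 / 6 ≤ √2 * β := by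
  set y := √((1 - c) / 2) with hy
  have hy0 : 0 ≤ y := sqrt_nonneg _
  have hy2 : y ^ 2 = (1 - c) / 2 := sq_sqrt (by linarith)
  have h2 : √2 ^ 2 = 2 := sq_sqrt (by norm_num)
  have h2p : 0 < √2 := sqrt_pos.2 (by norm_num)
  have hs : sin (β / 2) = y / √2 := by
    have hs0 : 0 ≤ sin (β / 2) := sin_nonneg_of_nonneg_of_le_pi (by linarith) (by linarith)
    have h3 : sin (β / 2) ^ 2 = (y / √2) ^ 2 := by
      rw [div_pow, h2, hy2]
      have h4 := cos_sq' (β / 2)
      have h5 := cos_two_mul (β / 2)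
      rw [mul_div_cancel₀ _ (two_ne_zero), hcos] at h5
      rw [← sin_sq_add_cos_sq (β / 2)] at *
      nlinarith [sin_sq_add_cos_sq (β / 2)]
    exact (pow_left_inj₀ hs0 (by positivity) (by norm_num)).1 h3
  have hy1 : y ≤ 1 := by
    have : y ^ 2 ≤ 1 := by rw [hy2]; linarith
    exact (sq_le_one_iff₀ hy0).1 this
  have hx1 : y / √2 < 1 := by
    rw [div_lt_one h2p]
    have : (1 : ℝ) < √2 := by
      rw [show (1 : ℝ) = √1 by simp]
      exact sqrt_lt_sqrt (by norm_num) (by norm_num)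
    linarith
  have h6 := arcsin_lower (by positivity : 0 ≤ y / √2) hx1
  rw [← hs, arcsin_sin (by linarith [pi_pos]) (by linarith), hs] at h6
  have h7 : √2 * (2 * (y / √2 + (y / √2) ^ 3 / 6)) ≤ √2 * β :=
    mul_le_mul_of_nonneg_left (by linarith) h2p.le
  have h8 : √2 * (2 * (y / √2 + (y / √2) ^ 3 / 6)) = 2 * y + y ^ 3 / 6 := by
    field_simp
    rw [h2]
  linarith

/-- The numerical core of the lower bound. -/
lemma numeric_lower {β c s : ℝ} (hβ0 : 0 ≤ β) (hβ1 : β ≤ π) (hcs : c ^ 2 + s ^ 2 = 1)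
    (hcos : cos β = (1 + c) / 2) (hs : 1 / 2 ≤ s ∨ s ≤ -1 / 3) :
    2.247 ≤ √2 * β + √(5 - 4 * s) := by
  rcases hs with hs | hs
  · have hc : -1 ≤ c := by nlinarith
    have hc1 : c ≤ 1 := by nlinarith
    have h1 := angle_lower hβ0 hβ1 hc hc1 hcos
    set y := √((1 - c) / 2) with hy
    have hy0 : 0 ≤ y := sqrt_nonneg _
    have hy2 : y ^ 2 = (1 - c) / 2 := sq_sqrt (by linarith)
    have hc' : c = 1 - 2 * y ^ 2 := by linarith
    have hs2 : s ^ 2 = 4 * y ^ 2 * (1 - y ^ 2) := by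
      rw [hc'] at hcs
      nlinarith
    have hy1 : y ≤ 1 := by
      have : y ^ 2 ≤ 1 := by rw [hy2]; linarith
      exact (sq_le_one_iff₀ hy0).1 this
    -- s ≤ y ((1-y²)/k + k), k = 12/13
    have hsM : s ≤ y * ((1 - y ^ 2) * (13 / 12) + 12 / 13) := by
      have hM0 : 0 ≤ y * ((1 - y ^ 2) * (13 / 12) + 12 / 13) := by
        have : 0 ≤ 1 - y ^ 2 := by nlinarith
        positivity
      refine abs_le_of_sq_le_sq' ?_ hM0 |>.2
      rw [hs2]
      nlinarith [mul_nonneg (sq_nonneg y) (sq_nonneg ((1 - y ^ 2) * (13 / 12) - 12 / 13))]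
    have hyl : (1 : ℝ) / 4 ≤ y := by
      by_contra hlt
      push Not at hlt
      nlinarith
    have hcube : 2 * y / 25 - 8 / 375 ≤ y ^ 3 / 6 := by
      nlinarith [mul_nonneg (sq_nonneg (y - 2 / 5)) (by linarith : 0 ≤ y + 4 / 5)]
    have hroot : 1361 / 600 - 52 / 25 * y ≤ √(5 - 4 * s) := by
      by_cases hR : 1361 / 600 - 52 / 25 * y ≤ 0
      · exact hR.trans (sqrt_nonneg _)
      · apply le_sqrt_of_sq_le
        nlinarith [mul_nonneg (sub_nonneg.2 hyl) (sq_nonneg (y - 0.3802)),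
          sq_nonneg (y - 0.3802)]
    have : √2 * β + √(5 - 4 * s) ≥ 2 * y + (2 * y / 25 - 8 / 375) +
        (1361 / 600 - 52 / 25 * y) := by linarith
    norm_num at this ⊢
    linarith
  · have h1 : (2.247 : ℝ) ≤ √(5 - 4 * s) := by
      apply le_sqrt_of_sq_le
      nlinarith
    have : 0 ≤ √2 * β := by positivity
    linarith

lemma norm_of_sq {x : E} {r : ℝ} (h : x 0 ^ 2 + x 1 ^ 2 + x 2 ^ 2 = r) :
    ‖x‖ = √r := by
  rw [← h, ← norm_sq, sqrt_sq (norm_nonneg _)]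

lemma dist_of_sq {x y : E} {r : ℝ}
    (h : (x 0 - y 0) ^ 2 + (x 1 - y 1) ^ 2 + (x 2 - y 2) ^ 2 = r) :
    dist x y = √r := by
  rw [← h, ← dist_sq, sqrt_sq dist_nonneg]

lemma cos_angle_of {x y : E} {q : ℝ} (hx : x 0 ^ 2 + x 1 ^ 2 + x 2 ^ 2 = 2)
    (hy : y 0 ^ 2 + y 1 ^ 2 + y 2 ^ 2 = 2) (h : x 0 * y 0 + x 1 * y 1 + x 2 * y 2 = q) :
    cos (InnerProductGeometry.angle x y) = q / 2 := by
  rw [InnerProductGeometry.cos_angle, norm_of_sq hx, norm_of_sq hy,
    inner_eq, h, mul_self_sqrt (by norm_num)]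

lemma angle_one (θ : ℝ) :
    cos (InnerProductGeometry.angle (B₁ - A₁) (C₁ θ - A₁)) = (1 + cos θ) / 2 := by
  apply cos_angle_of
  · simp [A₁, B₁]; norm_num
  · simp [A₁, C₁]
    nlinarith [sin_sq_add_cos_sq θ]
  · simp [A₁, B₁, C₁]

lemma angle_two (θ : ℝ) :
    cos (InnerProductGeometry.angle (C₂ θ - B₂) (A₂ - B₂)) = (1 + cos θ) / 2 := by
  apply cos_angle_of
  · simp [B₂, C₂]
    nlinarith [sin_sq_add_cos_sq θ]
  · simp [A₂, B₂]; norm_num
  · simp [A₂, B₂, C₂]

lemma costM_lower {θ : ℝ} (hs : 1 / 2 ≤ sin θ ∨ sin θ ≤ -1 / 3) : 4.494 ≤ costM θ := by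
  have h1 := numeric_lower (InnerProductGeometry.angle_nonneg (B₁ - A₁) (C₁ θ - A₁))
    (InnerProductGeometry.angle_le_pi _ _) (cos_sq_add_sin_sq θ) (angle_one θ) hs
  have h2 := numeric_lower (InnerProductGeometry.angle_nonneg (C₂ θ - B₂) (A₂ - B₂))
    (InnerProductGeometry.angle_le_pi _ _) (cos_sq_add_sin_sq θ) (angle_two θ) hs
  have h3 : dist (C₁ θ) B₂ = √(5 - 4 * sin θ) := by
    apply dist_of_sq
    simp [C₁, B₂]
    nlinarith [sin_sq_add_cos_sq θ]
  have h4 : dist A₁ (C₂ θ) = √(5 - 4 * sin θ) := by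
    apply dist_of_sq
    simp [A₁, C₂]
    nlinarith [sin_sq_add_cos_sq θ]
  unfold costM
  rw [h3, h4]
  norm_num at h1 h2 ⊢
  linarith

lemma admissible_sin {θ : ℝ} (h : Admissible θ) : 1 / 2 ≤ sin θ ∨ sin θ ≤ -1 / 3 := by
  obtain ⟨a, b, ha, hb, hma, hmb, ha0, hb0, ha1, hb1, hd⟩ := h
  by_contra hcon
  push Not at hcon
  obtain ⟨hs1, hs2⟩ := hcon
  set s := sin θ with hs
  set c := cos θ with hc
  have hcs : c ^ 2 = 1 - s ^ 2 := by nlinarith [sin_sq_add_cos_sq θ]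
  have hg : 0 < 2 * (1 - s ^ 2) - 2 * |s| * (2 - s) := by
    rcases le_or_gt 0 s with h | h
    · rw [abs_of_nonneg h]; nlinarith
    · rw [abs_of_neg h]; nlinarith
  set g := 2 * (1 - s ^ 2) - 2 * |s| * (2 - s) with hgdef
  have hg2 : g ≤ 2 := by
    have : 0 ≤ |s| * (2 - s) := mul_nonneg (abs_nonneg _) (by linarith)
    nlinarith [sq_nonneg s]
  obtain ⟨t, ht, hσ⟩ : ∃ t ∈ Icc (0 : ℝ) 1, a t + b t = g / 10 := by
    have hcont : ContinuousOn (fun t => a t + b t) (Icc 0 1) := ha.add hb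
    have := intermediate_value_Icc (zero_le_one' ℝ) hcont
    obtain ⟨t, ht, h⟩ := this (show g / 10 ∈ Icc ((fun t => a t + b t) 0)
      ((fun t => a t + b t) 1) by
        simp only [ha0, hb0, ha1, hb1]
        constructor <;> linarith)
    exact ⟨t, ht, h⟩
  have hat : 0 ≤ a t := by
    rw [← ha0]; exact hma ⟨le_refl _, zero_le_one⟩ ht ht.1
  have hbt : 0 ≤ b t := by
    rw [← hb0]; exact hmb ⟨le_refl _, zero_le_one⟩ ht ht.1
  have h1 := hd t ht
  have h2 : dist (A₁ + a t • (C₂ θ - A₁)) (C₁ θ + b t • (B₂ - C₁ θ)) ^ 2 = 2 := by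
    rw [h1, sq_sqrt (by norm_num)]
  rw [dist_sq] at h2
  simp [A₁, C₂, C₁, B₂] at h2
  rw [← hs, ← hc] at h2
  set δ := b t - a t with hδ
  have hδσ : |δ| ≤ g / 10 := by
    rw [abs_le]
    constructor <;> linarith
  have h3 : (2 - s) ^ 2 * δ ^ 2 + 2 * s * (2 - s) * δ =
      c ^ 2 * (2 * (g / 10) - (g / 10) ^ 2) := by
    rw [← hσ, hδ]
    nlinarith
  have h4 : (2 - s) ^ 2 * δ ^ 2 ≤ 6 * (g / 10) ^ 2 := by
    have h5 : δ ^ 2 ≤ (g / 10) ^ 2 := by
      rw [← sq_abs δ]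
      exact pow_le_pow_left₀ (abs_nonneg _) hδσ 2
    have h6 : (2 - s) ^ 2 ≤ 6 := by nlinarith
    exact mul_le_mul h6 h5 (sq_nonneg _) (by norm_num)
  have h5 : 2 * s * (2 - s) * δ ≤ 2 * |s| * (2 - s) * (g / 10) := by
    have h6 : s * δ ≤ |s| * (g / 10) := by
      calc s * δ ≤ |s * δ| := le_abs_self _
        _ = |s| * |δ| := abs_mul _ _
        _ ≤ |s| * (g / 10) := mul_le_mul_of_nonneg_left hδσ (abs_nonneg _)
    nlinarith [mul_le_mul_of_nonneg_right h6 (by linarith : 0 ≤ 2 * (2 - s))]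
  rw [hcs] at h3
  have h7 : (1 - s ^ 2) * (g / 10) ^ 2 ≤ (g / 10) ^ 2 := by
    exact mul_le_of_le_one_left (sq_nonneg _) (by linarith [sq_nonneg s])
  have h8 : g * (g / 10) ≤ 7 * (g / 10) ^ 2 := by
    have : g * (g / 10) = 2 * (1 - s ^ 2) * (g / 10) - 2 * |s| * (2 - s) * (g / 10) := by
      rw [hgdef]; ring
    rw [this]
    have e1 : (1 - s ^ 2) * (2 * (g / 10) - (g / 10) ^ 2) =
        2 * (1 - s ^ 2) * (g / 10) - (1 - s ^ 2) * (g / 10) ^ 2 := by ring
    linarith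
  have h9 : g * (g / 10) = g * g / 10 := by ring
  have h10 : 7 * (g / 10) ^ 2 = 7 * (g * g) / 100 := by ring
  have h11 := mul_pos hg hg
  linarith

/-! ### The new motion -/

/-- A great-circle arc. -/
lemma exists_arc (p q : E) (hp : ‖p‖ = √2) (hq : ‖q‖ = √2)
    (h0 : 0 < sin (InnerProductGeometry.angle p q)) :
    ∃ γ : ℝ → E, γ 0 = p ∧ γ 1 = q ∧ (∀ t, ‖γ t‖ = √2) ∧
      ∀ s t, dist (γ s) (γ t) ≤ √2 * InnerProductGeometry.angle p q * |s - t| := by
  set ω := InnerProductGeometry.angle p q with hω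
  have h2 : √2 ^ 2 = 2 := sq_sqrt (by norm_num)
  have hcos : inner ℝ p q = 2 * cos ω := by
    rw [hω, InnerProductGeometry.cos_angle, hp, hq, mul_self_sqrt (by norm_num)]
    ring
  have hpp : inner ℝ p p = 2 := by rw [real_inner_self_eq_norm_sq, hp, h2]
  have hqq : inner ℝ q q = 2 := by rw [real_inner_self_eq_norm_sq, hq, h2]
  have hqp : inner ℝ q p = 2 * cos ω := by rw [real_inner_comm, hcos]
  obtain ⟨w, hw⟩ : ∃ w : E, w = (sin ω)⁻¹ • (q - cos ω • p) := ⟨_, rfl⟩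
  have hpw : inner ℝ p w = 0 := by
    rw [hw, inner_smul_right, inner_sub_right, inner_smul_right, hcos, hpp]
    ring
  have hwp : inner ℝ w p = 0 := by rw [real_inner_comm, hpw]
  have hww : inner ℝ w w = 2 := by
    rw [hw, inner_smul_right, inner_smul_left, inner_sub_right, inner_sub_left, inner_sub_left,
      inner_smul_right, inner_smul_right, inner_smul_left, inner_smul_left, hcos, hpp, hqq, hqp]
    simp only [conj_trivial]
    field_simp
    nlinarith [sin_sq_add_cos_sq ω]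
  have hnorm : ∀ x y : ℝ, ‖x • p + y • w‖ ^ 2 = 2 * (x ^ 2 + y ^ 2) := by
    intro x y
    rw [← real_inner_self_eq_norm_sq, inner_add_left, inner_add_right, inner_add_right]
    simp only [inner_smul_left, inner_smul_right, hpw, hwp, hpp, hww, conj_trivial]
    ring
  refine ⟨fun t => cos (ω * t) • p + sin (ω * t) • w, ?_, ?_, ?_, ?_⟩
  · simp
  · simp only [mul_one]
    rw [hw, smul_smul, mul_inv_cancel₀ h0.ne', one_smul]
    abel
  · intro t
    have h3 := hnorm (cos (ω * t)) (sin (ω * t))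
    rw [cos_sq_add_sin_sq, mul_one] at h3
    rw [← h3, sqrt_sq (norm_nonneg _)]
  · intro s t
    have h3 : cos (ω * s) • p + sin (ω * s) • w - (cos (ω * t) • p + sin (ω * t) • w) =
        (cos (ω * s) - cos (ω * t)) • p + (sin (ω * s) - sin (ω * t)) • w := by
      rw [sub_smul, sub_smul]
      abel
    rw [dist_eq_norm, h3]
    have h4 := hnorm (cos (ω * s) - cos (ω * t)) (sin (ω * s) - sin (ω * t))
    have h5 : (cos (ω * s) - cos (ω * t)) ^ 2 + (sin (ω * s) - sin (ω * t)) ^ 2 =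
        2 - 2 * cos (ω * s - ω * t) := by
      rw [cos_sub]
      nlinarith [sin_sq_add_cos_sq (ω * s), sin_sq_add_cos_sq (ω * t)]
    have h6 := one_sub_sq_div_two_le_cos (x := ω * s - ω * t)
    have hω0 : 0 ≤ ω := InnerProductGeometry.angle_nonneg _ _
    refine (pow_le_pow_iff_left₀ (norm_nonneg _) (by positivity) two_ne_zero).1 ?_
    rw [h4, h5, mul_pow, mul_pow, h2, sq_abs]
    nlinarith

/-- Clamp to the unit interval. -/
noncomputable def cl (x : ℝ) : ℝ := max 0 (min 1 x)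

lemma cl_mono : Monotone cl := fun _ _ h => max_le_max le_rfl (min_le_min le_rfl h)

lemma cl_cont : Continuous cl := by unfold cl; fun_prop

lemma cl_of_le {x : ℝ} (h : x ≤ 0) : cl x = 0 := by
  unfold cl
  rw [min_eq_right (by linarith), max_eq_left h]

lemma cl_of_ge {x : ℝ} (h : 1 ≤ x) : cl x = 1 := by
  unfold cl
  rw [min_eq_left h, max_eq_right (by norm_num)]

lemma cl_of_mem {x : ℝ} (h0 : 0 ≤ x) (h1 : x ≤ 1) : cl x = x := by
  unfold cl
  rw [min_eq_right h1, max_eq_right h0]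

lemma cl_mem (x : ℝ) : cl x ∈ Icc (0 : ℝ) 1 :=
  ⟨le_max_left _ _, max_le zero_le_one (min_le_left _ _)⟩

/-- Length of a Lipschitz curve run through monotonically. -/
lemma var_le {f : ℝ → E} {K : ℝ} (hK : 0 ≤ K)
    (hf : ∀ s t, dist (f s) (f t) ≤ K * |s - t|) {g : ℝ → ℝ} (hg : MonotoneOn g (Icc 0 1))
    (g0 : g 0 = 0) (g1 : g 1 = 1) :
    eVariationOn (fun t => f (g t)) (Icc 0 1) ≤ ENNReal.ofReal K := by
  have h1 : LipschitzOnWith K.toNNReal f univ := by
    apply LipschitzOnWith.of_dist_le_mul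
    intro x _ y _
    rw [Real.coe_toNNReal K hK, Real.dist_eq]
    exact hf x y
  have h2 := h1.comp_eVariationOn_le (g := g) (s := Icc (0 : ℝ) 1) (fun _ _ => mem_univ _)
  have h3 := (hg.eVariationOn_eq (a := 0) (b := 1) ⟨le_refl _, zero_le_one⟩
    ⟨zero_le_one, le_refl _⟩).le
  rw [inter_self, g0, g1, sub_zero, ENNReal.ofReal_one] at h3
  calc eVariationOn (fun t => f (g t)) (Icc 0 1) ≤ K.toNNReal * eVariationOn g (Icc 0 1) := h2
    _ ≤ K.toNNReal * 1 := mul_le_mul_right h3 _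
    _ = ENNReal.ofReal K := by rw [mul_one]; rfl

lemma var_add_le (f g : ℝ → E) (s : Set ℝ) :
    eVariationOn (fun t => f t + g t) s ≤ eVariationOn f s + eVariationOn g s := by
  apply iSup_le
  rintro ⟨n, ⟨u, hu, us⟩⟩
  calc ∑ i ∈ Finset.range n, edist (f (u (i + 1)) + g (u (i + 1))) (f (u i) + g (u i)) ≤
        ∑ i ∈ Finset.range n, (edist (f (u (i + 1))) (f (u i)) +
          edist (g (u (i + 1))) (g (u i))) :=
        Finset.sum_le_sum fun i _ => edist_add_add_le _ _ _ _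
    _ = ∑ i ∈ Finset.range n, edist (f (u (i + 1))) (f (u i)) +
        ∑ i ∈ Finset.range n, edist (g (u (i + 1))) (g (u i)) := Finset.sum_add_distrib
    _ ≤ eVariationOn f s + eVariationOn g s :=
        add_le_add (eVariationOn.sum_le hu us) (eVariationOn.sum_le hu us)

/-- `√(2/3)` -/
noncomputable def κ : ℝ := √(2 / 3)

lemma κ_sq : κ ^ 2 = 2 / 3 := sq_sqrt (by norm_num)

lemma κ_pos : 0 < κ := sqrt_pos.2 (by norm_num)

/-- The turning points of the new motion. -/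
noncomputable def D₁ : E := !₂[2 / 5 + 4 / 5 * κ, κ, 4 / 5 - 2 / 5 * κ]
@[inherit_doc D₁] noncomputable def D₂ : E := !₂[3 / 5 - 4 / 5 * κ, κ, 6 / 5 + 2 / 5 * κ]

/-- the offset function of stage 2 -/
noncomputable def h (v : ℝ) : ℝ := (√(1 + 14 * v * (1 - v)) - 1) / 7

lemma h_eq {v : ℝ} (h0 : 0 ≤ v) (h1 : v ≤ 1) : 7 * h v ^ 2 + 2 * h v = 2 * v * (1 - v) := by
  have h2 : 0 ≤ 1 + 14 * v * (1 - v) := by nlinarith
  have h3 := sq_sqrt h2
  unfold h
  nlinarith

lemma h_zero : h 0 = 0 := by simp [h]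
lemma h_one : h 1 = 0 := by simp [h]

lemma h_cont : Continuous h := by unfold h; fun_prop

lemma h_lip {u v : ℝ} (hu0 : 0 ≤ u) (huv : u ≤ v) (hv1 : v ≤ 1) :
    |h v - h u| ≤ v - u := by
  have hu : 1 ≤ 1 + 14 * u * (1 - u) := by nlinarith
  have hv : 1 ≤ 1 + 14 * v * (1 - v) := by nlinarith
  have su : 1 ≤ √(1 + 14 * u * (1 - u)) := by
    rw [show (1 : ℝ) = √1 by simp]
    exact sqrt_le_sqrt (by simpa using hu)
  have sv : 1 ≤ √(1 + 14 * v * (1 - v)) := by
    rw [show (1 : ℝ) = √1 by simp]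
    exact sqrt_le_sqrt (by simpa using hv)
  have eu := sq_sqrt (zero_le_one.trans hu)
  have ev := sq_sqrt (zero_le_one.trans hv)
  set a := √(1 + 14 * u * (1 - u)) with ha
  set b := √(1 + 14 * v * (1 - v)) with hb
  have h1 : (b - a) * (b + a) = 14 * (v - u) * (1 - u - v) := by nlinarith
  have h2 : |b - a| * (b + a) ≤ 14 * (v - u) := by
    rw [← abs_of_pos (by linarith : 0 < b + a), ← abs_mul, h1, abs_mul,
      abs_of_nonneg (by linarith : 0 ≤ 14 * (v - u))]
    have h3 : |1 - u - v| ≤ 1 := by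
      rw [abs_le]; constructor <;> linarith
    nlinarith
  have h3 : |b - a| * 2 ≤ 14 * (v - u) :=
    (mul_le_mul_of_nonneg_left (by linarith) (abs_nonneg _)).trans h2
  have h4 : h v - h u = (b - a) / 7 := by
    unfold h
    rw [← ha, ← hb]
    ring
  rw [h4, abs_div, abs_of_pos (by norm_num : (0 : ℝ) < 7), div_le_iff₀ (by norm_num)]
  linarith

lemma mono_minus : MonotoneOn (fun t => cl (3 * t - 1) - h (cl (3 * t - 1))) (Icc 0 1) := by
  intro x _ y _ hxy
  have h1 : cl (3 * x - 1) ≤ cl (3 * y - 1) := cl_mono (by linarith)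
  have h2 := h_lip (cl_mem (3 * x - 1)).1 h1 (cl_mem (3 * y - 1)).2
  have h3 := abs_le.1 h2
  simp only
  linarith [h3.2]

lemma mono_plus : MonotoneOn (fun t => cl (3 * t - 1) + h (cl (3 * t - 1))) (Icc 0 1) := by
  intro x _ y _ hxy
  have h1 : cl (3 * x - 1) ≤ cl (3 * y - 1) := cl_mono (by linarith)
  have h2 := h_lip (cl_mem (3 * x - 1)).1 h1 (cl_mem (3 * y - 1)).2
  have h3 := abs_le.1 h2
  simp only
  linarith [h3.1]

lemma norm_D₁ : ‖D₁‖ = √2 := by
  apply norm_of_sq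
  simp [D₁]
  nlinarith [κ_sq]

lemma norm_B₁ : ‖B₁‖ = √2 := by
  apply norm_of_sq
  simp [B₁]
  norm_num

lemma norm_D₂B₂ : ‖D₂ - B₂‖ = √2 := by
  apply norm_of_sq
  simp [D₂, B₂]
  nlinarith [κ_sq]

lemma norm_A₂B₂ : ‖A₂ - B₂‖ = √2 := by
  apply norm_of_sq
  simp [A₂, B₂]
  norm_num

lemma cos_one : cos (InnerProductGeometry.angle B₁ D₁) = (2 / 5 + 9 / 5 * κ) / 2 := by
  apply cos_angle_of
  · simp [B₁]; norm_num
  · simp [D₁]
    nlinarith [κ_sq]
  · simp [B₁, D₁]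
    ring

lemma cos_two : cos (InnerProductGeometry.angle (D₂ - B₂) (A₂ - B₂)) =
    (2 / 5 + 9 / 5 * κ) / 2 := by
  apply cos_angle_of
  · simp [D₂, B₂]
    nlinarith [κ_sq]
  · simp [A₂, B₂]; norm_num
  · simp [D₂, A₂, B₂]
    ring

lemma κ_lower : 0.8164 < κ := by
  unfold κ
  apply lt_sqrt_of_sq_lt
  norm_num

lemma κ_upper : κ < 0.8165 := by
  unfold κ
  rw [sqrt_lt' (by norm_num)]
  norm_num

/-- upper bound for the angles of the new motion -/
lemma angle_upper {ω : ℝ} (h0 : 0 ≤ ω) (h1 : ω ≤ π)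
    (hcos : cos ω = (2 / 5 + 9 / 5 * κ) / 2) : ω ≤ 0.3638 ∧ 0 < sin ω := by
  have hk := κ_lower
  have hk' := κ_upper
  norm_num at hk hk'
  constructor
  · by_contra hlt
    push Not at hlt
    have h2 : cos ω < cos 0.3638 := cos_lt_cos_of_nonneg_of_le_pi (by norm_num) h1 hlt
    have h3 := cos_bound (x := 0.3638) (by rw [abs_of_nonneg] <;> norm_num)
    rw [abs_of_nonneg (by norm_num : (0 : ℝ) ≤ 0.3638)] at h3
    have h4 := (abs_le.1 h3).2
    norm_num at h2 h4
    linarith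
  · apply sin_pos_of_pos_of_lt_pi
    · rcases h0.lt_or_eq with h | h
      · exact h
      · rw [← h, cos_zero] at hcos
        linarith
    · rcases h1.lt_or_eq with h | h
      · exact h
      · rw [h, cos_pi] at hcos
        linarith

lemma smul_lip (v : E) (s t : ℝ) : dist (s • v) (t • v) ≤ ‖v‖ * |s - t| := by
  rw [dist_eq_norm, ← sub_smul, norm_smul, Real.norm_eq_abs, mul_comm]

lemma norm_D₂ : ‖D₂‖ = √3 := by
  apply norm_of_sq
  simp [D₂]
  nlinarith [κ_sq]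

lemma norm_B₂D₁ : ‖B₂ - D₁‖ = √3 := by
  apply norm_of_sq
  simp [D₁, B₂]
  nlinarith [κ_sq]

lemma stage_two {v : ℝ} (h0 : 0 ≤ v) (h1 : v ≤ 1) :
    dist ((v - h v) • D₂) (D₁ + (v + h v) • (B₂ - D₁)) = √2 := by
  have h2 := h_eq h0 h1
  apply dist_of_sq
  simp [D₁, D₂, B₂]
  linear_combination ((4 / 5) * (1 - 2 * h v) ^ 2 + (2 * v - 1) ^ 2) * κ_sq + (4 / 3) * h2

/-- The new motion: its cost is at most `4.4935`. -/
lemma exists_motion : ∃ A B : ℝ → E, IsMotion A B ∧ cost A B ≤ ENNReal.ofReal 4.4935 := by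
  obtain ⟨ho1, hs1⟩ := angle_upper (InnerProductGeometry.angle_nonneg B₁ D₁)
    (InnerProductGeometry.angle_le_pi _ _) cos_one
  obtain ⟨ho2, hs2⟩ := angle_upper (InnerProductGeometry.angle_nonneg (D₂ - B₂) (A₂ - B₂))
    (InnerProductGeometry.angle_le_pi _ _) cos_two
  obtain ⟨γ₁, g10, g11, g1n, g1l⟩ := exists_arc B₁ D₁ norm_B₁ norm_D₁ hs1
  obtain ⟨γ₂, g20, g21, g2n, g2l⟩ := exists_arc (D₂ - B₂) (A₂ - B₂) norm_D₂B₂ norm_A₂B₂ hs2
  have hω1 := InnerProductGeometry.angle_nonneg B₁ D₁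
  have hω2 := InnerProductGeometry.angle_nonneg (D₂ - B₂) (A₂ - B₂)
  have cont_of : ∀ {f : ℝ → E} {K : ℝ}, 0 ≤ K → (∀ s t, dist (f s) (f t) ≤ K * |s - t|) →
      Continuous f := by
    intro f K hK hf
    have h1 : LipschitzWith K.toNNReal f := by
      apply LipschitzWith.of_dist_le_mul
      intro x y
      rw [Real.coe_toNNReal K hK, Real.dist_eq]
      exact hf x y
    exact h1.continuous
  have cg1 := cont_of (by positivity) g1l
  have cg2 := cont_of (by positivity) g2l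
  refine ⟨fun t => (cl (3 * t - 1) - h (cl (3 * t - 1))) • D₂ +
      (γ₂ (cl (3 * t - 2)) - (D₂ - B₂)),
    fun t => γ₁ (cl (3 * t)) + (cl (3 * t - 1) + h (cl (3 * t - 1))) • (B₂ - D₁), ?_, ?_⟩
  · refine ⟨?_, ?_, ?_, ?_, ?_, ?_, ?_⟩
    · apply Continuous.continuousOn
      have := cl_cont
      have := h_cont
      fun_prop
    · apply Continuous.continuousOn
      have := cl_cont
      have := h_cont
      fun_prop
    · intro t ht
      by_cases c1 : 3 * t ≤ 1
      · rw [cl_of_le (by linarith : 3 * t - 1 ≤ 0), cl_of_le (by linarith : 3 * t - 2 ≤ 0),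
          h_zero, g20]
        simp only [zero_smul, sub_self, add_zero]
        rw [dist_zero_left, g1n]
      · by_cases c2 : 3 * t ≤ 2
        · rw [cl_of_ge (by linarith : 1 ≤ 3 * t), cl_of_le (by linarith : 3 * t - 2 ≤ 0), g20, g11,
            cl_of_mem (by linarith) (by linarith), sub_self, add_zero]
          exact stage_two (by linarith) (by linarith)
        · rw [cl_of_ge (by linarith : 1 ≤ 3 * t), cl_of_ge (by linarith : 1 ≤ 3 * t - 1), g11,
            h_one]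
          have e1 : (1 - (0 : ℝ)) • D₂ + (γ₂ (cl (3 * t - 2)) - (D₂ - B₂)) =
              γ₂ (cl (3 * t - 2)) + B₂ := by
            rw [sub_zero, one_smul]; abel
          have e2 : D₁ + (1 + (0 : ℝ)) • (B₂ - D₁) = B₂ := by
            rw [add_zero, one_smul]; abel
          rw [e1, e2, dist_eq_norm, add_sub_cancel_right, g2n]
    · rw [cl_of_le (by norm_num), cl_of_le (by norm_num), h_zero, g20]
      simp [A₁]
      ext i
      fin_cases i <;> simp
    · rw [cl_of_le (by norm_num : (3 : ℝ) * 0 ≤ 0), cl_of_le (by norm_num), h_zero, g10]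
      simp
    · rw [cl_of_ge (by norm_num), cl_of_ge (by norm_num), h_one, g21, sub_zero, one_smul]
      abel
    · rw [cl_of_ge (by norm_num : (1 : ℝ) ≤ 3 * 1), cl_of_ge (by norm_num), h_one, g11, add_zero,
        one_smul]
      abel
  · unfold cost
    have va : eVariationOn (fun t => (cl (3 * t - 1) - h (cl (3 * t - 1))) • D₂ +
        (γ₂ (cl (3 * t - 2)) - (D₂ - B₂))) (Icc 0 1) ≤
        ENNReal.ofReal √3 + ENNReal.ofReal (√2 *
          InnerProductGeometry.angle (D₂ - B₂) (A₂ - B₂)) := by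
      refine (var_add_le _ _ _).trans (add_le_add ?_ ?_)
      · rw [← norm_D₂]
        refine var_le (f := fun x => x • D₂) (norm_nonneg _) (smul_lip D₂) mono_minus ?_ ?_
        · rw [cl_of_le (by norm_num), h_zero, sub_zero]
        · rw [cl_of_ge (by norm_num), h_one, sub_zero]
      · refine var_le (f := fun x => γ₂ x - (D₂ - B₂)) (g := fun t => cl (3 * t - 2))
          (by positivity) ?_ ?_ ?_ ?_
        · intro s t
          rw [dist_sub_right]
          exact g2l s t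
        · intro x _ y _ hxy
          exact cl_mono (by linarith)
        · exact cl_of_le (by norm_num)
        · exact cl_of_ge (by norm_num)
    have vb : eVariationOn (fun t => γ₁ (cl (3 * t)) +
        (cl (3 * t - 1) + h (cl (3 * t - 1))) • (B₂ - D₁)) (Icc 0 1) ≤
        ENNReal.ofReal (√2 * InnerProductGeometry.angle B₁ D₁) + ENNReal.ofReal √3 := by
      refine (var_add_le _ _ _).trans (add_le_add ?_ ?_)
      · refine var_le (f := γ₁) (g := fun t => cl (3 * t)) (by positivity) g1l ?_ ?_ ?_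
        · intro x _ y _ hxy
          exact cl_mono (by linarith)
        · exact cl_of_le (by norm_num)
        · exact cl_of_ge (by norm_num)
      · rw [← norm_B₂D₁]
        refine var_le (f := fun x => x • (B₂ - D₁)) (norm_nonneg _) (smul_lip _) mono_plus ?_ ?_
        · rw [cl_of_le (by norm_num), h_zero, add_zero]
        · rw [cl_of_ge (by norm_num), h_one, add_zero]
    refine (add_le_add va vb).trans ?_
    rw [← ENNReal.ofReal_add (by positivity) (by positivity),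
      ← ENNReal.ofReal_add (by positivity) (by positivity),
      ← ENNReal.ofReal_add (by positivity) (by positivity)]
    apply ENNReal.ofReal_le_ofReal
    have h3 : √3 ≤ 1.73206 := by
      exact sqrt_le_iff.2 ⟨by norm_num, by norm_num⟩
    have h2 : √2 ≤ 1.41422 := by
      exact sqrt_le_iff.2 ⟨by norm_num, by norm_num⟩
    have h4 : √2 * InnerProductGeometry.angle (D₂ - B₂) (A₂ - B₂) ≤ 1.41422 * 0.3638 :=
      mul_le_mul h2 ho2 hω2 (by norm_num)
    have h5 : √2 * InnerProductGeometry.angle B₁ D₁ ≤ 1.41422 * 0.3638 :=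
      mul_le_mul h2 ho1 hω1 (by norm_num)
    norm_num at h3 h4 h5 ⊢
    linarith

/-- Lewis' angle is admissible. -/
lemma admissible_lewis : Admissible (arccos (3 / 5)) := by
  have hc : cos (arccos (3 / 5)) = 3 / 5 := cos_arccos (by norm_num) (by norm_num)
  have hs : sin (arccos (3 / 5)) = 4 / 5 := by
    rw [sin_arccos, show (1 : ℝ) - (3 / 5) ^ 2 = (4 / 5) ^ 2 by norm_num, sqrt_sq (by norm_num)]
  set k : ℝ → ℝ := fun v => (√(4 + 9 * v * (1 - v)) - 2) / 6 with hk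
  have kc : Continuous k := by
    rw [hk]; fun_prop
  have k0 : k 0 = 0 := by
    simp only [hk]
    rw [show (4 : ℝ) + 9 * 0 * (1 - 0) = 2 ^ 2 by norm_num, sqrt_sq (by norm_num)]
    norm_num
  have k1 : k 1 = 0 := by
    simp only [hk]
    rw [show (4 : ℝ) + 9 * 1 * (1 - 1) = 2 ^ 2 by norm_num, sqrt_sq (by norm_num)]
    norm_num
  have klip : ∀ u ∈ Icc (0 : ℝ) 1, ∀ v ∈ Icc (0 : ℝ) 1, u ≤ v → |k v - k u| ≤ v - u := by
    intro u hu v hv huv
    have hu' : 4 ≤ 4 + 9 * u * (1 - u) := by nlinarith [hu.1, hu.2]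
    have hv' : 4 ≤ 4 + 9 * v * (1 - v) := by nlinarith [hv.1, hv.2]
    have h4 : √4 = (2 : ℝ) := by
      rw [show (4 : ℝ) = 2 ^ 2 by norm_num, sqrt_sq (by norm_num)]
    have su : 2 ≤ √(4 + 9 * u * (1 - u)) := by
      rw [← h4]; exact sqrt_le_sqrt hu'
    have sv : 2 ≤ √(4 + 9 * v * (1 - v)) := by
      rw [← h4]; exact sqrt_le_sqrt hv'
    have eu := sq_sqrt ((by norm_num : (0 : ℝ) ≤ 4).trans hu')
    have ev := sq_sqrt ((by norm_num : (0 : ℝ) ≤ 4).trans hv')
    simp only [hk]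
    set a := √(4 + 9 * u * (1 - u)) with ha
    set b := √(4 + 9 * v * (1 - v)) with hb
    have h1 : (b - a) * (b + a) = 9 * (v - u) * (1 - u - v) := by nlinarith
    have h2 : |b - a| * (b + a) ≤ 9 * (v - u) := by
      rw [← abs_of_pos (by linarith : 0 < b + a), ← abs_mul, h1, abs_mul,
        abs_of_nonneg (by linarith : 0 ≤ 9 * (v - u))]
      have h3 : |1 - u - v| ≤ 1 := by
        rw [abs_le]; constructor <;> linarith [hu.1, hu.2, hv.1, hv.2]
      nlinarith
    have h3 : |b - a| * 4 ≤ 9 * (v - u) :=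
      (mul_le_mul_of_nonneg_left (by linarith) (abs_nonneg _)).trans h2
    have h5 : (b - 2) / 6 - (a - 2) / 6 = (b - a) / 6 := by ring
    rw [h5, abs_div, abs_of_pos (by norm_num : (0 : ℝ) < 6), div_le_iff₀ (by norm_num)]
    linarith
  refine ⟨fun t => t - k t, fun t => t + k t, by fun_prop, by fun_prop, ?_, ?_, ?_, ?_, ?_, ?_,
    ?_⟩
  · intro u hu v hv huv
    have := (abs_le.1 (klip u hu v hv huv)).2
    simp only
    linarith
  · intro u hu v hv huv
    have := (abs_le.1 (klip u hu v hv huv)).1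
    simp only
    linarith
  · simp only [k0, sub_zero]
  · simp only [k0, add_zero]
  · simp only [k1, sub_zero]
  · simp only [k1, add_zero]
  · intro t ht
    have h1 : 0 ≤ 4 + 9 * t * (1 - t) := by nlinarith [ht.1, ht.2]
    have h2 := sq_sqrt h1
    have h3 : 36 * k t ^ 2 + 24 * k t = 9 * t * (1 - t) := by
      simp only [hk]
      nlinarith
    apply dist_of_sq
    simp [A₁, C₂, C₁, B₂, hc, hs]
    linear_combination (4 / 25) * h3

/-- The best motion of the form `M_θ` is not optimal. -/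
theorem result :
    infCost < mstar ∧ mstar < ⊤ ∧
    (∃ A B : ℝ → E, IsMotion A B ∧ cost A B ≤ ENNReal.ofReal 4.4935) ∧
    (∀ θ : ℝ, Admissible θ → 4.494 ≤ costM θ) := by
  have h1 := exists_motion
  have h2 : ∀ θ : ℝ, Admissible θ → 4.494 ≤ costM θ := fun θ hθ =>
    costM_lower (admissible_sin hθ)
  refine ⟨?_, ?_, h1, h2⟩
  swap
  · exact (iInf₂_le _ admissible_lewis).trans_lt ENNReal.ofReal_lt_top
  obtain ⟨A, B, hm, hc⟩ := h1
  have h3 : infCost ≤ ENNReal.ofReal 4.4935 := by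
    refine le_trans ?_ hc
    exact iInf_le_of_le A (iInf_le_of_le B (iInf_le_of_le hm le_rfl))
  have h4 : ENNReal.ofReal 4.494 ≤ mstar :=
    le_iInf₂ fun θ hθ => ENNReal.ofReal_le_ofReal (h2 θ hθ)
  refine (h3.trans_lt ?_).trans_le h4
  rw [ENNReal.ofReal_lt_ofReal_iff (by norm_num)]
  norm_num

end Pool.Agent.Results.MP_9fae52_an.BetterMotion
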